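import Pool.Agent.L7h10.AB.Stm2

/-! Project AB, the second half of part CC. -/

namespace Pool.Agent.L7h72.AB

open Polynomial Pool.Agent.L7h10.AB

variable {K : Type} [Field K]

lemma same (p : ℕ) [CharP K p] (n : ℕ) (h7 : 7 ≤ n) (hp : n + 1 < p) {g h g' h' : K[X]}
    (hg : g.Monic) (hg2 : g.natDegree = 2) (hh : h.Monic) (hhn : h.natDegree = n - 3)
    (hg' : g'.Monic) (hg2' : g'.natDegree = 2) (hh' : h'.Monic) (hhn' : h'.natDegree = n - 3)
    (hd : derivative (g ^ 2 * h) = derivative (g' ^ 2 * h')) : ∃ c : K, g ^ 2 * h - g' ^ 2 * h' = C c := by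
  have d1 : (g ^ 2 * h).natDegree = n + 1 := by
    rw [(hg.pow 2).natDegree_mul hh, hg.natDegree_pow, hg2, hhn]
    omega
  have d2 : (g' ^ 2 * h').natDegree = n + 1 := by
    rw [(hg'.pow 2).natDegree_mul hh', hg'.natDegree_pow, hg2', hhn']
    omega
  have d3 : (g ^ 2 * h - g' ^ 2 * h').natDegree < p := by
    have := natDegree_sub_le (g ^ 2 * h) (g' ^ 2 * h')
    rw [d1, d2, max_self] at this
    omega
  refine ⟨_, Pool.Agent.L7h56.AB.const_of_deriv p _ d3 ?_⟩
  rw [derivative_sub, hd, sub_self]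

lemma same2 {g h h' : K[X]} (hg : g.Monic) (hg2 : g.natDegree = 2) {c : K}
    (hc : g ^ 2 * h - g ^ 2 * h' = C c) : h = h' := by
  by_contra hne
  have h1 : h - h' ≠ 0 := sub_ne_zero.2 hne
  have h2 : (g ^ 2 * (h - h')).natDegree = 4 + (h - h').natDegree := by
    rw [(hg.pow 2).natDegree_mul' h1, hg.natDegree_pow, hg2]
  rw [mul_sub, hc, natDegree_C] at h2
  omega

theorem cc2 (hC : S_CARD) (K : Type) [Field K] [Finite K] (p : ℕ) [CharP K p] (n : ℕ) (h7 : 7 ≤ n)
    (hp : n + 1 < p) :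
    Nat.card {x : (Mon K 2 × Mon K (n - 3)) × (Mon K 2 × Mon K (n - 3)) // x.1 ≠ x.2 ∧
      ¬ IsCoprime x.1.1.1 x.2.1.1 ∧
      derivative (x.1.1.1 ^ 2 * x.1.2.1) = derivative (x.2.1.1 ^ 2 * x.2.2.1)} ≤
    Nat.card K ^ (n - 2) := by
  classical
  have key : ∀ x : {x : (Mon K 2 × Mon K (n - 3)) × (Mon K 2 × Mon K (n - 3)) // x.1 ≠ x.2 ∧
      ¬ IsCoprime x.1.1.1 x.2.1.1 ∧
      derivative (x.1.1.1 ^ 2 * x.1.2.1) = derivative (x.2.1.1 ^ 2 * x.2.2.1)},
      ∃ y : K × K × K × Mon K (n - 5), x.1.1.1.1 = (X - C y.1) * (X + C y.2.1) ∧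
        x.1.1.2.1 = (X + C y.2.2.1) ^ 2 * y.2.2.2.1 ∧ x.1.2.1.1 = (X - C y.1) * (X + C y.2.2.1) ∧
        x.1.2.2.1 = (X + C y.2.1) ^ 2 * y.2.2.2.1 := by
    rintro ⟨⟨⟨⟨g, hg, hg2⟩, ⟨h, hh, hhn⟩⟩, ⟨⟨g', hg', hg2'⟩, ⟨h', hh', hhn'⟩⟩⟩, hne, hco, hd⟩
    simp only at hco hd ⊢
    obtain ⟨c, hc⟩ := same p n h7 hp hg hg2 hh hhn hg' hg2' hh' hhn' hd
    have hgg : g ≠ g' := by
      rintro rfl
      have := same2 hg hg2 hc
      subst this
      exact hne rfl
    obtain ⟨z, hz, hz1, hz2⟩ : ∃ z, Prime z ∧ z ∣ g ∧ z ∣ g' := by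
      by_contra hcon
      push Not at hcon
      exact hco (isCoprime_of_prime_dvd (fun h0 => hg.ne_zero h0.1) fun z hz h1 => hcon z hz h1)
    have hzd : z.natDegree = 1 := by
      have hz0 : 0 < z.natDegree := hz.irreducible.natDegree_pos
      have hz2' : z.natDegree ≤ 2 := hg2 ▸ natDegree_le_of_dvd hz1 hg.ne_zero
      by_contra h1
      have h2 : z.natDegree = 2 := by omega
      apply hgg
      obtain ⟨a, ha⟩ := hz1
      obtain ⟨a', ha'⟩ := hz2
      have e1 : a.natDegree = 0 := by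
        have : g.natDegree = z.natDegree + a.natDegree := by
          rw [ha, natDegree_mul hz.ne_zero]
          rintro rfl
          rw [mul_zero] at ha
          exact hg.ne_zero ha
        omega
      have e2 : a'.natDegree = 0 := by
        have : g'.natDegree = z.natDegree + a'.natDegree := by
          rw [ha', natDegree_mul hz.ne_zero]
          rintro rfl
          rw [mul_zero] at ha'
          exact hg'.ne_zero ha'
        omega
      rw [eq_C_of_natDegree_eq_zero e1] at ha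
      rw [eq_C_of_natDegree_eq_zero e2] at ha'
      have l1 : z.leadingCoeff * a.coeff 0 = 1 := by
        have := congrArg leadingCoeff ha
        rwa [hg.leadingCoeff, leadingCoeff_mul, leadingCoeff_C, eq_comm] at this
      have l2 : z.leadingCoeff * a'.coeff 0 = 1 := by
        have := congrArg leadingCoeff ha'
        rwa [hg'.leadingCoeff, leadingCoeff_mul, leadingCoeff_C, eq_comm] at this
      have hl : z.leadingCoeff ≠ 0 := leadingCoeff_ne_zero.2 hz.ne_zero
      have l3 : a.coeff 0 = a'.coeff 0 := mul_left_cancel₀ hl (l1.trans l2.symm)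
      rw [ha, ha', l3]
    obtain ⟨b, hb⟩ := exists_root_of_degree_eq_one ((degree_eq_iff_natDegree_eq hz.ne_zero).2 hzd)
    have r1 : g.IsRoot b := hb.dvd hz1
    have r2 : g'.IsRoot b := hb.dvd hz2
    obtain ⟨l, hl⟩ := dvd_iff_isRoot.2 r1
    obtain ⟨l', hl'⟩ := dvd_iff_isRoot.2 r2
    have ml : l.Monic := (monic_X_sub_C b).of_mul_monic_left (hl ▸ hg)
    have ml' : l'.Monic := (monic_X_sub_C b).of_mul_monic_left (hl' ▸ hg')
    have dl : l.natDegree = 1 := by
      have : g.natDegree = 1 + l.natDegree := by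
        rw [hl, (monic_X_sub_C b).natDegree_mul ml, natDegree_X_sub_C]
      omega
    have dl' : l'.natDegree = 1 := by
      have : g'.natDegree = 1 + l'.natDegree := by
        rw [hl', (monic_X_sub_C b).natDegree_mul ml', natDegree_X_sub_C]
      omega
    obtain ⟨β, hβ⟩ : ∃ β, l = X + C β := ⟨_, ml.eq_X_add_C dl⟩
    obtain ⟨β', hβ'⟩ : ∃ β', l' = X + C β' := ⟨_, ml'.eq_X_add_C dl'⟩
    have hββ : β ≠ β' := by
      rintro rfl
      exact hgg (by rw [hl, hl', hβ, hβ'])
    have c0 : c = 0 := by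
      have := congrArg (eval b) hc
      rw [eval_sub, eval_mul, eval_pow, eval_mul, eval_pow, eval_C, r1.eq_zero, r2.eq_zero] at this
      simpa using this.symm
    have hX : (X - C b : K[X]) ≠ 0 := X_sub_C_ne_zero b
    have e3 : (X + C β) ^ 2 * h = (X + C β') ^ 2 * h' := by
      rw [c0, C_0, sub_eq_zero, hl, hl', hβ, hβ', mul_pow, mul_pow, mul_assoc, mul_assoc] at hc
      exact mul_left_cancel₀ (pow_ne_zero 2 hX) hc
    have cop : IsCoprime (X + C β' : K[X]) (X + C β) := by
      have := pairwise_coprime_X_sub_C (K := K) (Function.injective_id) (show -β' ≠ -β from fun h => hββ (neg_injective h.symm))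
      simpa [Function.onFun, sub_neg_eq_add] using this
    have dv : (X + C β' : K[X]) ^ 2 ∣ h := by
      apply (cop.pow (m := 2) (n := 2)).dvd_of_dvd_mul_left
      rw [e3]
      exact dvd_mul_right _ _
    obtain ⟨k, hk⟩ := dv
    have mk : k.Monic := ((monic_X_add_C β').pow 2).of_mul_monic_left (hk ▸ hh)
    have dk : k.natDegree = n - 5 := by
      have : h.natDegree = 2 + k.natDegree := by
        rw [hk, ((monic_X_add_C β').pow 2).natDegree_mul mk, (monic_X_add_C β').natDegree_pow, natDegree_X_add_C]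
      omega
    refine ⟨(b, β, β', ⟨k, mk, dk⟩), ?_, ?_, ?_, ?_⟩
    · simp only; rw [hl, hβ]
    · simp only; exact hk
    · simp only; rw [hl', hβ']
    · simp only
      rw [hk] at e3
      have hX' : ((X + C β') ^ 2 : K[X]) ≠ 0 := ((monic_X_add_C β').pow 2).ne_zero
      apply mul_left_cancel₀ hX'
      rw [← e3]
      ring
  choose Ψ hΨ using key
  have hfin := (hC K (n - 5)).1
  have hinj : Function.Injective Ψ := by
    intro x y hxy
    obtain ⟨a1, a2, a3, a4⟩ := hΨ x
    obtain ⟨b1, b2, b3, b4⟩ := hΨ y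
    rw [hxy] at a1 a2 a3 a4
    apply Subtype.ext
    apply Prod.ext
    · apply Prod.ext
      · exact Subtype.ext (a1.trans b1.symm)
      · exact Subtype.ext (a2.trans b2.symm)
    · apply Prod.ext
      · exact Subtype.ext (a3.trans b3.symm)
      · exact Subtype.ext (a4.trans b4.symm)
  refine (Nat.card_le_card_of_injective Ψ hinj).trans (le_of_eq ?_)
  rw [Nat.card_prod, Nat.card_prod, Nat.card_prod, (hC K (n - 5)).2]
  have : n - 2 = (n - 5) + 3 := by omega
  rw [this, pow_add]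
  ring

end Pool.Agent.L7h72.AB
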